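import Pool.Agent.DPF.StmtsR

/-!
# Squad DPF (MP_d97b4e_co), row UNI: aggregation by sizes
-/

namespace Pool.Agent.DPF.H46

open Finset Pool.Agent.DPS

theorem card_ini {n l : ℕ} (h : l ≤ n) : (ini n l).card = l := by
  unfold ini
  rw [Fin.card_filter_val_lt]
  exact min_eq_right h

/-- sums over the family, sorted by sizes -/
theorem agg {n L : ℕ} (X : Finset (Finset (Fin n))) (m : Finset (Fin n) → ℝ) (φ : ℕ → ℝ)
    (hL : ∀ E ∈ X, E.card + 1 ≤ L) :
    ∑ e ∈ range L, Ms X m e * φ e = ∑ E ∈ X, m E * φ E.card := by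
  rw [← Finset.sum_fiberwise_of_maps_to (s := X) (t := range L) (g := fun E => E.card)
    (fun E hE => Finset.mem_range.2 (hL E hE))]
  refine Finset.sum_congr rfl fun e _ => ?_
  unfold Ms
  rw [Finset.sum_mul]
  refine Finset.sum_congr rfl fun E hE => ?_
  rw [(Finset.mem_filter.1 hE).2]

/-- Jensen for the squares of the positive part. -/
theorem jensen {ι : Type} (S : Finset ι) (z : ι → ℝ) (c : ℝ) (h : (S.card : ℝ) * c ≤ ∑ i ∈ S, z i) :
    (S.card : ℝ) * (max c 0) ^ 2 ≤ ∑ i ∈ S, (max (z i) 0) ^ 2 := by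
  have h1 : ∀ i ∈ S, 2 * max c 0 * z i - (max c 0) ^ 2 ≤ (max (z i) 0) ^ 2 := by
    intro i _
    have h2 : 0 ≤ max c 0 := le_max_right _ _
    have h3 : z i ≤ max (z i) 0 := le_max_left _ _
    nlinarith [mul_nonneg h2 (sub_nonneg.2 h3), sq_nonneg (max (z i) 0 - max c 0)]
  have h2 := Finset.sum_le_sum h1
  rw [Finset.sum_sub_distrib, ← Finset.mul_sum, Finset.sum_const, nsmul_eq_mul] at h2
  have h3 : 0 ≤ max c 0 := le_max_right _ _
  have h4 : max c 0 * c = (max c 0) ^ 2 := by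
    rcases le_total c 0 with hc | hc
    · rw [max_eq_right hc]; ring
    · rw [max_eq_left hc]; ring
  have h5 := mul_le_mul_of_nonneg_left h (mul_nonneg (by norm_num : (0 : ℝ) ≤ 2) h3)
  have h6 : 2 * max c 0 * ((S.card : ℝ) * c) = 2 * ((S.card : ℝ) * (max c 0) ^ 2) := by
    rw [← h4]; ring
  rw [h6] at h5
  linarith

/-- one for `x ∈ E`, otherwise zero -/
noncomputable def dl {n : ℕ} (E : Finset (Fin n)) (x : Fin n) : ℝ := if x ∈ E then 1 else 0

theorem sum_dl {n : ℕ} (I A E : Finset (Fin n)) (hA : A ⊆ E) (hE : E ⊆ I) :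
    ∑ y ∈ I \ A, dl E y = (E.card : ℝ) - A.card := by
  unfold dl
  rw [Finset.sum_ite, Finset.sum_const_zero, add_zero, Finset.sum_const, nsmul_eq_mul, mul_one]
  have h1 : (I \ A).filter (fun y => y ∈ E) = E \ A := by
    ext y
    simp only [Finset.mem_filter, Finset.mem_sdiff]
    constructor
    · rintro ⟨⟨_, h2⟩, h3⟩
      exact ⟨h3, h2⟩
    · rintro ⟨h3, h2⟩
      exact ⟨⟨hE h3, h2⟩, h3⟩
  rw [h1, Finset.card_sdiff_of_subset hA, Nat.cast_sub (Finset.card_le_card hA)]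

/-- the pairs `y ≠ j` -/
theorem sum_pairs {n : ℕ} (I A E : Finset (Fin n)) (hA : A ⊆ E) (hE : E ⊆ I) (α β : ℝ) :
    ∑ j ∈ I \ A, ∑ y ∈ (I \ A).erase j, dl E y * (α + β * dl E j) =
      ((E.card : ℝ) - A.card) *
        (α * (((I.card : ℝ) - A.card) - 1) + β * (((E.card : ℝ) - A.card) - 1)) := by
  have h1 := sum_dl I A E hA hE
  have hIA : ((I \ A).card : ℝ) = (I.card : ℝ) - A.card := by
    rw [Finset.card_sdiff_of_subset (hA.trans hE),
      Nat.cast_sub (Finset.card_le_card (hA.trans hE))]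
  have h2 : ∀ j ∈ I \ A, ∑ y ∈ (I \ A).erase j, dl E y * (α + β * dl E j) =
      ((E.card : ℝ) - A.card) * α + (((E.card : ℝ) - A.card) * β - (α + β)) * dl E j := by
    intro j hj
    rw [← Finset.sum_mul, Finset.sum_erase_eq_sub hj, h1]
    unfold dl
    split_ifs <;> ring
  rw [Finset.sum_congr rfl h2, Finset.sum_add_distrib, Finset.sum_const, nsmul_eq_mul, hIA,
    ← Finset.mul_sum, h1]
  ring

/-- kept: the constant part -/
noncomputable def ka (u : ℕ) : ℝ := if u = 0 then 0 else 1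

/-- kept: the coefficient of `dl E j` -/
noncomputable def kb (u : ℕ) : ℝ := if u = 0 then 0 else if u = 1 then 0 else -1

open Classical in
theorem kp_eq {n : ℕ} (st : ℕ → ℕ) (j : Fin n) (E : Finset (Fin n)) :
    (if kp st j E then (1 : ℝ) else 0) = ka (st E.card) + kb (st E.card) * dl E j := by
  unfold kp ka kb dl
  by_cases h0 : st E.card = 0
  · simp [h0]
  · by_cases h1 : st E.card = 1
    · simp [h1]
    · have h2 : 2 ≤ st E.card := by omega
      by_cases hj : j ∈ E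
      · simp [h0, h1, hj]
      · simp [h0, h1, hj, h2]

theorem gy_eq {n : ℕ} (ν k : ℕ) (st : ℕ → ℕ) (j : Fin n) (X : Finset (Finset (Fin n)))
    (m : Finset (Fin n) → ℝ) (y : Fin n) : gy ν k st j X m y =
      ∑ E ∈ X, m E * (dl E y * ((se ν k E.card * ka (st E.card) - 1) +
        se ν k E.card * kb (st E.card) * dl E j)) := by
  unfold gy
  refine Finset.sum_congr rfl fun E _ => ?_
  have h := kp_eq st j E
  have h2 : se ν k E.card * ka (st E.card) - 1 + se ν k E.card * kb (st E.card) * dl E j =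
      se ν k E.card * (ka (st E.card) + kb (st E.card) * dl E j) - 1 := by ring
  rw [h2, ← h]
  unfold dl
  split_ifs <;> simp

theorem hh_eq {n : ℕ} (st : ℕ → ℕ) (j : Fin n) (X : Finset (Finset (Fin n)))
    (m : Finset (Fin n) → ℝ) : hh st j X m =
      ∑ E ∈ X, m E * (ka (st E.card) + kb (st E.card) * dl E j) := by
  unfold hh
  refine Finset.sum_congr rfl fun E _ => ?_
  rw [← kp_eq st j E]
  split_ifs <;> simp

theorem gg_eq {n : ℕ} (ν k : ℕ) (st : ℕ → ℕ) (j : Fin n) (X : Finset (Finset (Fin n)))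
    (m : Finset (Fin n) → ℝ) : gg ν k st j X m =
      ∑ E ∈ X, se ν k E.card * m E * (ka (st E.card) + kb (st E.card) * dl E j) := by
  unfold gg
  refine Finset.sum_congr rfl fun E _ => ?_
  rw [← kp_eq st j E]
  split_ifs <;> simp

theorem k_nonneg {n : ℕ} (st : ℕ → ℕ) (j : Fin n) (E : Finset (Fin n)) :
    0 ≤ ka (st E.card) + kb (st E.card) * dl E j := by
  rw [← kp_eq st j E]
  split_ifs <;> norm_num

theorem dl_one {n : ℕ} {E : Finset (Fin n)} {x : Fin n} (h : x ∈ E) : dl E x = 1 := by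
  unfold dl
  exact if_pos h

theorem ka_kb (u : ℕ) : ka u + kb u = if u = 1 then 1 else 0 := by
  unfold ka kb
  by_cases h0 : u = 0
  · simp [h0]
  · by_cases h1 : u = 1
    · simp [h1]
    · simp [h0, h1]

/-- `g_y` if `j` belongs to every set through `y` -/
noncomputable def gK {n : ℕ} (ν k : ℕ) (st : ℕ → ℕ) (X : Finset (Finset (Fin n)))
    (m : Finset (Fin n) → ℝ) (y : Fin n) : ℝ :=
  ∑ E ∈ X, m E * (dl E y * ((if st E.card = 1 then se ν k E.card else 0) - 1))

theorem gy_mem {n : ℕ} (ν k : ℕ) (st : ℕ → ℕ) (j : Fin n) (X : Finset (Finset (Fin n)))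
    (m : Finset (Fin n) → ℝ) (y : Fin n) (h : ∀ E ∈ X, y ∈ E → j ∈ E) :
    gy ν k st j X m y = gK ν k st X m y := by
  rw [gy_eq]
  unfold gK
  refine Finset.sum_congr rfl fun E hE => ?_
  by_cases hy : y ∈ E
  · rw [dl_one (h E hE hy)]
    have h1 := ka_kb (st E.card)
    have h2 : se ν k E.card * ka (st E.card) - 1 + se ν k E.card * kb (st E.card) * 1 =
      se ν k E.card * (ka (st E.card) + kb (st E.card)) - 1 := by ring
    rw [h2, h1]
    congr 3
    split_ifs <;> simp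
  · have h3 : dl E y = 0 := by
      unfold dl
      exact if_neg hy
    rw [h3]
    ring

/-- The data of one set `A` and the family `X`. -/
structure Dt {n : ℕ} (L : ℕ) (A : Finset (Fin n)) (X : Finset (Finset (Fin n)))
    (m : Finset (Fin n) → ℝ) : Prop where
  hLn : L ≤ n
  hA : A ⊆ ini n L
  ha : A.card + 2 ≤ L
  hX : ∀ E ∈ X, A ⊂ E ∧ E ⊆ ini n L ∧ E.card + 1 ≤ L
  hm : ∀ E ∈ X, 0 ≤ m E

theorem Dt.card {n L : ℕ} {A : Finset (Fin n)} {X : Finset (Finset (Fin n))}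
    {m : Finset (Fin n) → ℝ} (D : Dt L A X m) :
    ((ini n L \ A).card : ℝ) = (L : ℝ) - A.card := by
  rw [Finset.card_sdiff_of_subset D.hA, card_ini D.hLn,
    Nat.cast_sub (by have := D.ha; omega)]

theorem gA_eq {n L : ℕ} {A : Finset (Fin n)} {X : Finset (Finset (Fin n))}
    {m : Finset (Fin n) → ℝ} (D : Dt L A X m) (s : ℕ → ℝ) (st : ℕ → ℕ) :
    gA L A.card s st (Ms X m) = ∑ E ∈ X, m E * ((((E.card : ℝ) - A.card) / ((L : ℝ) - A.card)) *
      ((if st E.card = 1 then s E.card else 0) - 1)) := by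
  rw [← agg X m (fun e => (((e : ℝ) - A.card) / ((L : ℝ) - A.card)) *
      ((if st e = 1 then s e else 0) - 1)) (fun E hE => (D.hX E hE).2.2)]
  unfold gA xe
  refine Finset.sum_congr rfl fun e _ => ?_
  ring

theorem gN_eq {n L : ℕ} {A : Finset (Fin n)} {X : Finset (Finset (Fin n))}
    {m : Finset (Fin n) → ℝ} (D : Dt L A X m) (s : ℕ → ℝ) (st : ℕ → ℕ) :
    gN L A.card s st (Ms X m) = ∑ E ∈ X, m E * ((((E.card : ℝ) - A.card) / ((L : ℝ) - A.card)) *
      (s E.card * (if st E.card = 0 then 0 else if st E.card = 1 then 1 else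
        ((L : ℝ) - E.card) / ((L : ℝ) - A.card - 1)) - 1)) := by
  rw [← agg X m (fun e => (((e : ℝ) - A.card) / ((L : ℝ) - A.card)) *
      (s e * (if st e = 0 then 0 else if st e = 1 then 1 else
        ((L : ℝ) - e) / ((L : ℝ) - A.card - 1)) - 1)) (fun E hE => (D.hX E hE).2.2)]
  unfold gN xe
  refine Finset.sum_congr rfl fun e _ => ?_
  ring

theorem dA_eq {n L : ℕ} {A : Finset (Fin n)} {X : Finset (Finset (Fin n))}
    {m : Finset (Fin n) → ℝ} (D : Dt L A X m) (st : ℕ → ℕ) :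
    dA L st (Ms X m) = ∑ E ∈ X, m E * (if st E.card = 1 then 0 else 1) := by
  rw [← agg X m (fun e => if st e = 1 then (0 : ℝ) else 1) (fun E hE => (D.hX E hE).2.2)]
  unfold dA
  refine Finset.sum_congr rfl fun e _ => ?_
  split_ifs <;> simp

theorem dB_eq {n L : ℕ} {A : Finset (Fin n)} {X : Finset (Finset (Fin n))}
    {m : Finset (Fin n) → ℝ} (D : Dt L A X m) (st : ℕ → ℕ) :
    dB L A.card st (Ms X m) = ∑ E ∈ X, m E * (if st E.card = 0 then 1 else
      if st E.card = 1 then 0 else (((E.card : ℝ) - A.card) / ((L : ℝ) - A.card))) := by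
  rw [← agg X m (fun e => if st e = 0 then (1 : ℝ) else
      if st e = 1 then 0 else (((e : ℝ) - A.card) / ((L : ℝ) - A.card)))
      (fun E hE => (D.hX E hE).2.2)]
  unfold dB xe
  refine Finset.sum_congr rfl fun e _ => ?_
  split_ifs <;> simp

/-- (1) and (2) -/
theorem p1 {n L : ℕ} {A : Finset (Fin n)} {X : Finset (Finset (Fin n))}
    {m : Finset (Fin n) → ℝ} (D : Dt L A X m) (ν k : ℕ) (st : ℕ → ℕ) (η : ℝ) :
    ((L : ℝ) - A.card) * (max (η + gA L A.card (se ν k) st (Ms X m)) 0) ^ 2 ≤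
      ∑ y ∈ ini n L \ A, (max (η + gK ν k st X m y) 0) ^ 2 := by
  rw [← D.card]
  refine jensen _ _ _ (le_of_eq ?_)
  rw [Finset.sum_add_distrib, Finset.sum_const, nsmul_eq_mul, mul_add]
  congr 1
  unfold gK
  rw [Finset.sum_comm, gA_eq D, Finset.mul_sum]
  refine Finset.sum_congr rfl fun E hE => ?_
  have hE' := D.hX E hE
  rw [← Finset.mul_sum, ← Finset.sum_mul, sum_dl (ini n L) A E hE'.1.1 hE'.2.1, D.card]
  have h1 : (A.card : ℝ) + 2 ≤ L := by exact_mod_cast D.ha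
  have h2 : (L : ℝ) - A.card ≠ 0 := by
    have h3 : (0 : ℝ) < (L : ℝ) - A.card := by linarith
    exact h3.ne'
  field_simp

/-- (3) -/
theorem p3 {n L : ℕ} {A : Finset (Fin n)} {X : Finset (Finset (Fin n))}
    {m : Finset (Fin n) → ℝ} (D : Dt L A X m) (ν k : ℕ) (st : ℕ → ℕ) (η : ℝ) :
    ((L : ℝ) - A.card) * ((L : ℝ) - A.card - 1) *
        (max (η + gN L A.card (se ν k) st (Ms X m)) 0) ^ 2 ≤
      ∑ j ∈ ini n L \ A, ∑ y ∈ (ini n L \ A).erase j,
        (max (η + gy ν k st j X m y) 0) ^ 2 := by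
  have hI := D.card
  have h1 : (A.card : ℝ) + 2 ≤ L := by exact_mod_cast D.ha
  have h2 : (L : ℝ) - A.card ≠ 0 := by
    have h3 : (0 : ℝ) < (L : ℝ) - A.card := by linarith
    exact h3.ne'
  have h2' : (L : ℝ) - A.card - 1 ≠ 0 := by
    have h3 : (0 : ℝ) < (L : ℝ) - A.card - 1 := by linarith
    exact h3.ne'
  have hc : ((((ini n L \ A).sigma fun j => (ini n L \ A).erase j).card : ℕ) : ℝ) =
      ((L : ℝ) - A.card) * ((L : ℝ) - A.card - 1) := by
    rw [Finset.card_sigma, Nat.cast_sum]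
    have h4 : ∀ j ∈ ini n L \ A, ((((ini n L \ A).erase j).card : ℕ) : ℝ) =
        (L : ℝ) - A.card - 1 := by
      intro j hj
      rw [Finset.card_erase_of_mem hj, Nat.cast_sub, hI, Nat.cast_one]
      exact Finset.card_pos.2 ⟨j, hj⟩
    rw [Finset.sum_congr rfl h4, Finset.sum_const, nsmul_eq_mul, hI]
  have key : ∑ j ∈ ini n L \ A, ∑ y ∈ (ini n L \ A).erase j, gy ν k st j X m y =
      ((L : ℝ) - A.card) * ((L : ℝ) - A.card - 1) * gN L A.card (se ν k) st (Ms X m) := by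
    have h5 : ∑ j ∈ ini n L \ A, ∑ y ∈ (ini n L \ A).erase j, gy ν k st j X m y =
        ∑ E ∈ X, m E * ∑ j ∈ ini n L \ A, ∑ y ∈ (ini n L \ A).erase j,
          dl E y * ((se ν k E.card * ka (st E.card) - 1) +
            se ν k E.card * kb (st E.card) * dl E j) := by
      have h6 : ∀ j ∈ ini n L \ A, ∑ y ∈ (ini n L \ A).erase j, gy ν k st j X m y =
          ∑ E ∈ X, ∑ y ∈ (ini n L \ A).erase j,
          m E * (dl E y * ((se ν k E.card * ka (st E.card) - 1) +
            se ν k E.card * kb (st E.card) * dl E j)) := by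
        intro j _
        rw [Finset.sum_comm]
        exact Finset.sum_congr rfl fun y _ => gy_eq ν k st j X m y
      rw [Finset.sum_congr rfl h6, Finset.sum_comm]
      refine Finset.sum_congr rfl fun E _ => ?_
      rw [Finset.mul_sum]
      refine Finset.sum_congr rfl fun j _ => ?_
      rw [Finset.mul_sum]
    rw [h5, gN_eq D, Finset.mul_sum]
    refine Finset.sum_congr rfl fun E hE => ?_
    have hE' := D.hX E hE
    rw [sum_pairs (ini n L) A E hE'.1.1 hE'.2.1, card_ini D.hLn]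
    unfold ka kb
    split_ifs
    · field_simp
      ring
    · field_simp
      ring
    · field_simp
      ring
  have hj := jensen ((ini n L \ A).sigma fun j => (ini n L \ A).erase j)
    (fun p => η + gy ν k st p.1 X m p.2) (η + gN L A.card (se ν k) st (Ms X m)) (by
      rw [hc, Finset.sum_add_distrib, Finset.sum_const, nsmul_eq_mul, hc, mul_add,
        Finset.sum_sigma, key])
  rw [hc, Finset.sum_sigma] at hj
  exact hj

/-- (4), one point `j` -/
theorem p4 {n : ℕ} (X : Finset (Finset (Fin n))) (m : Finset (Fin n) → ℝ)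
    (hm : ∀ E ∈ X, 0 ≤ m E) (ν k : ℕ) (st : ℕ → ℕ) (η σ : ℝ) (hη : η ≤ ∑ E ∈ X, m E)
    (hs : ∀ E ∈ X, 0 < m E → st E.card ≠ 0 → σ ≤ se ν k E.card) (j : Fin n) :
    σ * (max (η - (∑ E ∈ X, m E - hh st j X m)) 0) ^ 2 ≤
      (max (η - (∑ E ∈ X, m E - hh st j X m)) 0) ^ 2 *
        (gg ν k st j X m / hh st j X m) := by
  have h0 : 0 ≤ hh st j X m := by
    rw [hh_eq]
    exact Finset.sum_nonneg fun E hE => mul_nonneg (hm E hE) (k_nonneg st j E)
  rcases h0.eq_or_lt with h | h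
  · rw [← h]
    have h1 : max (η - (∑ E ∈ X, m E - 0)) 0 = 0 := by
      refine max_eq_right ?_
      linarith
    rw [h1]
    simp
  · rw [mul_comm]
    refine mul_le_mul_of_nonneg_left ?_ (sq_nonneg _)
    rw [le_div_iff₀ h, hh_eq, gg_eq, Finset.mul_sum]
    refine Finset.sum_le_sum fun E hE => ?_
    have hk := k_nonneg st j E
    by_cases hst : st E.card = 0
    · have h2 : ka (st E.card) + kb (st E.card) * dl E j = 0 := by
        rw [hst]
        unfold ka kb
        simp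
      rw [h2]
      simp
    · rcases (hm E hE).eq_or_lt with hm0 | hm0
      · rw [← hm0]
        simp
      · have h3 := mul_le_mul_of_nonneg_right (hs E hE hm0 hst)
          (mul_nonneg hm0.le hk)
        calc σ * (m E * (ka (st E.card) + kb (st E.card) * dl E j))
            ≤ se ν k E.card * (m E * (ka (st E.card) + kb (st E.card) * dl E j)) := h3
          _ = se ν k E.card * m E * (ka (st E.card) + kb (st E.card) * dl E j) := by ring

theorem hA_eq {n L : ℕ} {A : Finset (Fin n)} {X : Finset (Finset (Fin n))}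
    {m : Finset (Fin n) → ℝ} (D : Dt L A X m) (st : ℕ → ℕ) (j : Fin n) (hj : j ∈ A) :
    ∑ E ∈ X, m E - hh st j X m = dA L st (Ms X m) := by
  rw [dA_eq D, hh_eq, ← Finset.sum_sub_distrib]
  refine Finset.sum_congr rfl fun E hE => ?_
  rw [dl_one ((D.hX E hE).1.1 hj)]
  have h1 := ka_kb (st E.card)
  rw [mul_one, h1]
  split_ifs <;> simp

theorem p5 {n L : ℕ} {A : Finset (Fin n)} {X : Finset (Finset (Fin n))}
    {m : Finset (Fin n) → ℝ} (D : Dt L A X m) (st : ℕ → ℕ) (η : ℝ) :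
    ((L : ℝ) - A.card) * (max (η - dB L A.card st (Ms X m)) 0) ^ 2 ≤
      ∑ j ∈ ini n L \ A, (max (η - (∑ E ∈ X, m E - hh st j X m)) 0) ^ 2 := by
  rw [← D.card]
  refine jensen _ _ _ (le_of_eq ?_)
  rw [Finset.sum_sub_distrib, Finset.sum_const, nsmul_eq_mul, mul_sub]
  congr 1
  have h1 : (A.card : ℝ) + 2 ≤ L := by exact_mod_cast D.ha
  have h2 : (L : ℝ) - A.card ≠ 0 := by
    have h3 : (0 : ℝ) < (L : ℝ) - A.card := by linarith
    exact h3.ne'
  have h5 : ∀ j ∈ ini n L \ A, ∑ E ∈ X, m E - hh st j X m =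
      ∑ E ∈ X, m E * ((1 - ka (st E.card)) - kb (st E.card) * dl E j) := by
    intro j _
    rw [hh_eq, ← Finset.sum_sub_distrib]
    refine Finset.sum_congr rfl fun E _ => ?_
    ring
  rw [Finset.sum_congr rfl h5, Finset.sum_comm, dB_eq D, Finset.mul_sum, D.card]
  refine Finset.sum_congr rfl fun E hE => ?_
  have hE' := D.hX E hE
  rw [← Finset.mul_sum, Finset.sum_sub_distrib, Finset.sum_const, nsmul_eq_mul, ← Finset.mul_sum,
    sum_dl (ini n L) A E hE'.1.1 hE'.2.1, D.card]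
  unfold ka kb
  split_ifs
  · field_simp
    ring
  · ring
  · field_simp
    ring

/-- One mode. -/
theorem mode {n L : ℕ} {A : Finset (Fin n)} {X : Finset (Finset (Fin n))}
    {m : Finset (Fin n) → ℝ} (D : Dt L A X m) (ν k : ℕ) (st : ℕ → ℕ) (η σ : ℝ)
    (hη : η ≤ ∑ E ∈ X, m E) (hσ : 0 ≤ σ)
    (hs : ∀ E ∈ X, 0 < m E → st E.card ≠ 0 → σ ≤ se ν k E.card) :
    ph4 L A.card (se ν k) st (Ms X m) σ η - η ^ 2 * (((L : ℝ) + 1) / ((A.card : ℝ) + 1)) ≤
      (∑ j ∈ ini n L, ((∑ y ∈ ini n L \ A,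
        ((max (η + gy ν k st j X m y) 0) ^ 2 - η ^ 2)) / ((A.card : ℝ) + 1) +
        (max (η - (∑ E ∈ X, m E - hh st j X m)) 0) ^ 2 *
          (gg ν k st j X m / hh st j X m) - η ^ 2)) / L := by
  have ha : (A.card : ℝ) + 2 ≤ L := by exact_mod_cast D.ha
  have ha0 : (0 : ℝ) ≤ A.card := Nat.cast_nonneg _
  have hLpos : (0 : ℝ) < L := by linarith
  have hapos : (0 : ℝ) < (A.card : ℝ) + 1 := by linarith
  have hIc : ((ini n L).card : ℝ) = L := by rw [card_ini D.hLn]
  -- the first part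
  have T1 : ∑ j ∈ ini n L, ∑ y ∈ ini n L \ A, (max (η + gy ν k st j X m y) 0) ^ 2 =
      ((A.card : ℝ) + 1) * (∑ y ∈ ini n L \ A, (max (η + gK ν k st X m y) 0) ^ 2) +
      ∑ j ∈ ini n L \ A, ∑ y ∈ (ini n L \ A).erase j,
        (max (η + gy ν k st j X m y) 0) ^ 2 := by
    rw [← Finset.sum_sdiff D.hA]
    have h1 : ∀ j ∈ A, ∑ y ∈ ini n L \ A, (max (η + gy ν k st j X m y) 0) ^ 2 =
        ∑ y ∈ ini n L \ A, (max (η + gK ν k st X m y) 0) ^ 2 := by
      intro j hj
      refine Finset.sum_congr rfl fun y _ => ?_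
      rw [gy_mem ν k st j X m y (fun E hE _ => (D.hX E hE).1.1 hj)]
    have h2 : ∀ j ∈ ini n L \ A, ∑ y ∈ ini n L \ A, (max (η + gy ν k st j X m y) 0) ^ 2 =
        (max (η + gK ν k st X m j) 0) ^ 2 + ∑ y ∈ (ini n L \ A).erase j,
          (max (η + gy ν k st j X m y) 0) ^ 2 := by
      intro j hj
      rw [← Finset.add_sum_erase _ _ hj, gy_mem ν k st j X m j (fun E _ h => h)]
    rw [Finset.sum_congr rfl h1, Finset.sum_congr rfl h2, Finset.sum_add_distrib,
      Finset.sum_const, nsmul_eq_mul]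
    ring
  have q1 := p1 D ν k st η
  have q3 := p3 D ν k st η
  have q5 := p5 D st η
  -- the second part
  have T2 : (A.card : ℝ) * (σ * (max (η - dA L st (Ms X m)) 0) ^ 2) +
      ((L : ℝ) - A.card) * (σ * (max (η - dB L A.card st (Ms X m)) 0) ^ 2) ≤
      ∑ j ∈ ini n L, (max (η - (∑ E ∈ X, m E - hh st j X m)) 0) ^ 2 *
          (gg ν k st j X m / hh st j X m) := by
    rw [← Finset.sum_sdiff D.hA, add_comm]
    refine add_le_add ?_ ?_
    · calc ((L : ℝ) - A.card) * (σ * (max (η - dB L A.card st (Ms X m)) 0) ^ 2)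
          = σ * (((L : ℝ) - A.card) * (max (η - dB L A.card st (Ms X m)) 0) ^ 2) := by ring
        _ ≤ σ * ∑ j ∈ ini n L \ A, (max (η - (∑ E ∈ X, m E - hh st j X m)) 0) ^ 2 :=
          mul_le_mul_of_nonneg_left q5 hσ
        _ = ∑ j ∈ ini n L \ A, σ * (max (η - (∑ E ∈ X, m E - hh st j X m)) 0) ^ 2 := by
          rw [Finset.mul_sum]
        _ ≤ _ := Finset.sum_le_sum fun j _ => p4 X m D.hm ν k st η σ hη hs j
    · have h1 : (A.card : ℝ) * (σ * (max (η - dA L st (Ms X m)) 0) ^ 2) =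
          ∑ _j ∈ A, σ * (max (η - dA L st (Ms X m)) 0) ^ 2 := by
        rw [Finset.sum_const, nsmul_eq_mul]
      rw [h1]
      refine Finset.sum_le_sum fun j hj => ?_
      have h2 := p4 X m D.hm ν k st η σ hη hs j
      rw [hA_eq D st j hj] at h2 ⊢
      exact h2
  have T3 : ∑ j ∈ ini n L, ((∑ y ∈ ini n L \ A,
        ((max (η + gy ν k st j X m y) 0) ^ 2 - η ^ 2)) / ((A.card : ℝ) + 1) +
        (max (η - (∑ E ∈ X, m E - hh st j X m)) 0) ^ 2 *
          (gg ν k st j X m / hh st j X m) - η ^ 2) =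
      (∑ j ∈ ini n L, ∑ y ∈ ini n L \ A, (max (η + gy ν k st j X m y) 0) ^ 2) /
          ((A.card : ℝ) + 1) +
        (∑ j ∈ ini n L, (max (η - (∑ E ∈ X, m E - hh st j X m)) 0) ^ 2 *
          (gg ν k st j X m / hh st j X m)) -
        L * (η ^ 2 * (((L : ℝ) + 1) / ((A.card : ℝ) + 1))) := by
    rw [Finset.sum_sub_distrib, Finset.sum_add_distrib, Finset.sum_const, nsmul_eq_mul, hIc,
      ← Finset.sum_div]
    have h1 : ∀ j ∈ ini n L, ∑ y ∈ ini n L \ A,
        ((max (η + gy ν k st j X m y) 0) ^ 2 - η ^ 2) =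
        ∑ y ∈ ini n L \ A, (max (η + gy ν k st j X m y) 0) ^ 2 -
          ((L : ℝ) - A.card) * η ^ 2 := by
      intro j _
      rw [Finset.sum_sub_distrib, Finset.sum_const, nsmul_eq_mul, D.card]
    rw [Finset.sum_congr rfl h1, Finset.sum_sub_distrib, Finset.sum_const, nsmul_eq_mul, hIc]
    field_simp
    ring
  rw [T3, T1, le_div_iff₀ hLpos]
  unfold ph4
  have h6 : ((A.card : ℝ) + 1) * (((L : ℝ) - A.card) *
      (max (η + gA L A.card (se ν k) st (Ms X m)) 0) ^ 2) +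
      ((L : ℝ) - A.card) * ((L : ℝ) - A.card - 1) *
        (max (η + gN L A.card (se ν k) st (Ms X m)) 0) ^ 2 ≤
      ((A.card : ℝ) + 1) * (∑ y ∈ ini n L \ A, (max (η + gK ν k st X m y) 0) ^ 2) +
      ∑ j ∈ ini n L \ A, ∑ y ∈ (ini n L \ A).erase j,
        (max (η + gy ν k st j X m y) 0) ^ 2 :=
    add_le_add (mul_le_mul_of_nonneg_left q1 hapos.le) q3
  have h7 := div_le_div_of_nonneg_right h6 hapos.le
  have h8 := add_le_add h7 T2
  refine le_trans (le_of_eq ?_) (sub_le_sub_right h8 _)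
  field_simp
  ring

/-- Row UNI. -/
theorem uni : UNIStmt := by
  intro n k t L ρ A X m η σ hL hLn hA hX hm hη0 hη hσ hs hmain
  unfold TT ex
  rcases X.eq_empty_or_nonempty with h | ⟨E, hE⟩
  · subst h
    have h1 : η = 0 := le_antisymm (by simpa using hη) hη0
    subst h1
    refine Finset.sum_nonneg fun i _ => mul_nonneg (ρ.nonneg i) ?_
    refine div_nonneg (Finset.sum_nonneg fun j _ => ?_) (Nat.cast_nonneg _)
    unfold gy hh gg
    simp
  · have D : Dt L A X m := by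
      refine ⟨hLn, hA, ?_, hX, hm⟩
      have h2 := Finset.card_lt_card (hX E hE).1
      have h3 := (hX E hE).2.2
      omega
    have h4 : ∑ i, ρ.w i * (ph4 L A.card (se (n - L) k) (ρ.st i) (Ms X m) (σ i) η -
        η ^ 2 * (((L : ℝ) + 1) / ((A.card : ℝ) + 1))) ≤
        ∑ i, ρ.w i * ((∑ j ∈ ini n L, ((∑ y ∈ ini n L \ A,
        ((max (η + gy (n - L) k (ρ.st i) j X m y) 0) ^ 2 - η ^ 2)) / ((A.card : ℝ) + 1) +
        (max (η - (∑ E ∈ X, m E - hh (ρ.st i) j X m)) 0) ^ 2 *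
          (gg (n - L) k (ρ.st i) j X m / hh (ρ.st i) j X m) - η ^ 2)) / L) :=
      Finset.sum_le_sum fun i _ => mul_le_mul_of_nonneg_left
        (mode D (n - L) k (ρ.st i) η (σ i) hη (hσ i) (hs i)) (ρ.nonneg i)
    refine le_trans ?_ h4
    have h5 : ∑ i, ρ.w i * (ph4 L A.card (se (n - L) k) (ρ.st i) (Ms X m) (σ i) η -
        η ^ 2 * (((L : ℝ) + 1) / ((A.card : ℝ) + 1))) =
        ∑ i, ρ.w i * ph4 L A.card (se (n - L) k) (ρ.st i) (Ms X m) (σ i) η -
        η ^ 2 * (((L : ℝ) + 1) / ((A.card : ℝ) + 1)) := by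
      have h6 : ∀ i ∈ (univ : Finset (Fin ρ.N)),
          ρ.w i * (ph4 L A.card (se (n - L) k) (ρ.st i) (Ms X m) (σ i) η -
          η ^ 2 * (((L : ℝ) + 1) / ((A.card : ℝ) + 1))) =
          ρ.w i * ph4 L A.card (se (n - L) k) (ρ.st i) (Ms X m) (σ i) η -
          ρ.w i * (η ^ 2 * (((L : ℝ) + 1) / ((A.card : ℝ) + 1))) := by
        intro i _
        ring
      rw [Finset.sum_congr rfl h6, Finset.sum_sub_distrib, ← Finset.sum_mul, ρ.sum_one, one_mul]
    rw [h5]
    linarith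

end Pool.Agent.DPF.H46
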